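import Pool.Agent.X263.AL.Stm2
import Pool.Agent.Y676.CH.Cnj

/-!
Part CYC of project AL: cycles of prime length.
-/

set_option autoImplicit false

namespace Pool.Agent.X274.AL

open Finset Polynomial Pool.Agent.W277.UH Pool.Agent.Y706.CH Pool.Agent.Y195.CH Pool.Agent.Y676.CH

universe u

section

variable {K : Type u} [Field K]

/-- numerator and denominator of the iterates -/
noncomputable def ip (d : ℕ) (p q : K[X]) : ℕ → K[X] × K[X]
  | 0 => (X, 1)
  | l + 1 => (hc d p (ip d p q l).1 (ip d p q l).2, hc d q (ip d p q l).1 (ip d p q l).2)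

lemma ip_degree (d : ℕ) (p q : K[X]) (l : ℕ) :
    (ip d p q l).1.natDegree ≤ d ^ l ∧ (ip d p q l).2.natDegree ≤ d ^ l := by
  induction l with
  | zero =>
    refine ⟨?_, ?_⟩
    · change (X : K[X]).natDegree ≤ _
      simp
    · change (1 : K[X]).natDegree ≤ _
      simp
  | succ l ih =>
    rw [pow_succ, mul_comm]
    exact ⟨hc_degree d (d ^ l) p _ _ ih.1 ih.2, hc_degree d (d ^ l) q _ _ ih.1 ih.2⟩

lemma ip_eval (d : ℕ) (hd : 1 ≤ d) (p q : K[X]) (hmax : max p.natDegree q.natDegree = d)
    (hco : IsCoprime p q) (x : K) (l : ℕ) :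
    (((ip d p q l).1.eval x, (ip d p q l).2.eval x) : K × K) ≠ 0 ∧
      pt ((ip d p q l).1.eval x, (ip d p q l).2.eval x) = (ratP1 p q d)^[l] (some x) := by
  induction l with
  | zero =>
    have h : (((ip d p q 0).1.eval x, (ip d p q 0).2.eval x) : K × K) = vec (some x) := by
      change (((X : K[X]).eval x, (1 : K[X]).eval x) : K × K) = (x, 1)
      rw [eval_X, eval_one]
    rw [h]
    exact ⟨vec_ne _, pt_vec _⟩
  | succ l ih =>
    have h := t_PT K d hd p q hmax hco _ ih.1
    have h1 : (((ip d p q (l + 1)).1.eval x, (ip d p q (l + 1)).2.eval x) : K × K) =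
        bK d p q ((ip d p q l).1.eval x, (ip d p q l).2.eval x) := by
      change (((hc d p _ _).eval x, (hc d q _ _).eval x) : K × K) = _
      rw [hc_eval, hc_eval]
      rfl
    rw [h1, Function.iterate_succ_apply', ← ih.2]
    exact ⟨h.1, h.2.symm⟩

lemma ip_top (d : ℕ) (hd : 1 ≤ d) (p q : K[X]) (hmax : max p.natDegree q.natDegree = d)
    (hco : IsCoprime p q) (l : ℕ) :
    (((ip d p q l).1.coeff (d ^ l), (ip d p q l).2.coeff (d ^ l)) : K × K) ≠ 0 ∧
      pt ((ip d p q l).1.coeff (d ^ l), (ip d p q l).2.coeff (d ^ l)) =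
        (ratP1 p q d)^[l] none := by
  induction l with
  | zero =>
    have h : (((ip d p q 0).1.coeff (d ^ 0), (ip d p q 0).2.coeff (d ^ 0)) : K × K) =
        vec none := by
      change (((X : K[X]).coeff (d ^ 0), (1 : K[X]).coeff (d ^ 0)) : K × K) = (1, 0)
      rw [pow_zero, coeff_X_one, coeff_one, if_neg one_ne_zero]
    rw [h]
    exact ⟨vec_ne _, pt_vec _⟩
  | succ l ih =>
    have h := t_PT K d hd p q hmax hco _ ih.1
    obtain ⟨hP, hQ⟩ := ip_degree d p q l
    have h1 : (((ip d p q (l + 1)).1.coeff (d ^ (l + 1)),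
        (ip d p q (l + 1)).2.coeff (d ^ (l + 1))) : K × K) =
        bK d p q ((ip d p q l).1.coeff (d ^ l), (ip d p q l).2.coeff (d ^ l)) := by
      change (((hc d p _ _).coeff (d ^ (l + 1)), (hc d q _ _).coeff (d ^ (l + 1))) : K × K) = _
      rw [pow_succ, mul_comm (d ^ l) d, hc_coeff _ _ _ _ _ hP hQ, hc_coeff _ _ _ _ _ hP hQ]
      rfl
    rw [h1, Function.iterate_succ_apply', ← ih.2]
    exact ⟨h.1, h.2.symm⟩

/-- the factorisation of the form of the fixed points -/
lemma form (d : ℕ) [Infinite K] (p q G P Q : K[X]) (hp : p.natDegree ≤ d) (hq : q.natDegree ≤ d)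
    (z : K) (m : ℕ) (hG : G.natDegree + m ≤ d + 1) (hF : p - X * q = (X - C z) ^ m * G)
    (hQ : Q ≠ 0) :
    hc (d + 1 - m) G P Q * (P - C z * Q) ^ m = Q * hc d p P Q - P * hc d q P Q := by
  classical
  apply Polynomial.eq_of_infinite_eval_eq
  apply Set.Infinite.mono (s := ((Q.roots.toFinset : Finset K) : Set K)ᶜ)
  · intro x hx
    have hx' : Q.eval x ≠ 0 := by
      intro h
      apply hx
      rw [Finset.mem_coe, Multiset.mem_toFinset, mem_roots hQ]
      exact h
    have hF' := congrArg (eval (P.eval x / Q.eval x)) hF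
    rw [eval_sub, eval_mul, eval_X, eval_mul, eval_pow, eval_sub, eval_X, eval_C] at hF'
    change eval x _ = eval x _
    simp only [eval_mul, eval_sub, eval_pow, eval_C, hc_eval]
    rw [hev_eval _ _ (by omega) _ hx', hev_eval _ _ hp _ hx', hev_eval _ _ hq _ hx']
    change Q.eval x ^ (d + 1 - m) * G.eval (P.eval x / Q.eval x) * (P.eval x - z * Q.eval x) ^ m =
      Q.eval x * (Q.eval x ^ d * p.eval (P.eval x / Q.eval x)) -
        P.eval x * (Q.eval x ^ d * q.eval (P.eval x / Q.eval x))
    have h1 : P.eval x - z * Q.eval x = Q.eval x * (P.eval x / Q.eval x - z) := by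
      field_simp
    have h2 : Q.eval x ^ (d + 1) = Q.eval x ^ (d + 1 - m) * Q.eval x ^ m := by
      rw [← pow_add]
      congr 1
      omega
    have h3 : P.eval x = Q.eval x * (P.eval x / Q.eval x) := by
      field_simp
    rw [h1, mul_pow]
    have h4 : Q.eval x * (Q.eval x ^ d * p.eval (P.eval x / Q.eval x)) -
        P.eval x * (Q.eval x ^ d * q.eval (P.eval x / Q.eval x)) =
        Q.eval x ^ (d + 1) * (p.eval (P.eval x / Q.eval x) -
          P.eval x / Q.eval x * q.eval (P.eval x / Q.eval x)) := by
      conv_lhs => rw [h3]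
      have h5 : Q.eval x * (P.eval x / Q.eval x) / Q.eval x = P.eval x / Q.eval x := by
        rw [← h3]
      rw [h5]
      ring
    rw [h4, hF', h2]
    ring
  · exact (Q.roots.toFinset.finite_toSet).infinite_compl

lemma local_key (d : ℕ) [Infinite K] (p q G : K[X]) (hp : p.natDegree ≤ d)
    (hq : q.natDegree ≤ d) (z : K) (hqz : q.eval z ≠ 0) (m : ℕ) (hm : 1 ≤ m)
    (hG : G.natDegree + m ≤ d + 1) (hF : p - X * q = (X - C z) ^ m * G) (l : ℕ) :
    ∃ Gl : K[X], (ip d p q l).1 - X * (ip d p q l).2 = (X - C z) ^ m * Gl ∧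
      (ip d p q l).2.eval z ≠ 0 ∧
      (m = 1 → Gl.eval z / (ip d p q l).2.eval z = (1 + G.eval z / q.eval z) ^ l - 1) ∧
      (2 ≤ m → Gl.eval z / (ip d p q l).2.eval z = l * (G.eval z / q.eval z)) := by
  induction l with
  | zero =>
    refine ⟨0, ?_, ?_, ?_, ?_⟩
    · change (X : K[X]) - X * 1 = _
      ring
    · change (1 : K[X]).eval z ≠ 0
      rw [eval_one]
      exact one_ne_zero
    · intro _
      simp
    · intro _
      simp
  | succ l ih =>
    obtain ⟨Gl, h1, h2, h3, h4⟩ := ih
    set P := (ip d p q l).1 with hPdef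
    set Q := (ip d p q l).2 with hQdef
    have hQ0 : Q ≠ 0 := fun h => h2 (by rw [h, eval_zero])
    have hfm := form d p q G P Q hp hq z m hG hF hQ0
    set H := hc (d + 1 - m) G P Q with hH
    change ∃ G' : K[X], hc d p P Q - X * hc d q P Q = (X - C z) ^ m * G' ∧ (hc d q P Q).eval z ≠ 0 ∧
      (m = 1 → G'.eval z / (hc d q P Q).eval z = (1 + G.eval z / q.eval z) ^ (l + 1) - 1) ∧
      (2 ≤ m → G'.eval z / (hc d q P Q).eval z = ((l + 1 : ℕ) : K) * (G.eval z / q.eval z))
    obtain ⟨r, rfl⟩ : ∃ r, m = r + 1 := ⟨m - 1, by omega⟩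
    have h5 : P - C z * Q = (X - C z) * ((X - C z) ^ r * Gl + Q) := by
      linear_combination h1
    have h6 : Q * (hc d p P Q - X * hc d q P Q) =
        (X - C z) ^ (r + 1) * (H * ((X - C z) ^ r * Gl + Q) ^ (r + 1) + Gl * hc d q P Q) := by
      rw [h5, mul_pow] at hfm
      linear_combination (hc d q P Q) * h1 - hfm
    have hcop : IsCoprime ((X - C z) ^ (r + 1)) Q := by
      apply IsCoprime.pow_left
      refine (irreducible_X_sub_C z).coprime_iff_not_dvd.2 ?_
      rw [dvd_iff_isRoot]
      exact h2
    obtain ⟨G', hG'⟩ : (X - C z) ^ (r + 1) ∣ (hc d p P Q - X * hc d q P Q) :=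
      hcop.dvd_of_dvd_mul_left ⟨_, h6⟩
    have h7 : Q * G' = H * ((X - C z) ^ r * Gl + Q) ^ (r + 1) + Gl * hc d q P Q := by
      have h8 : (X - C z : K[X]) ^ (r + 1) ≠ 0 := pow_ne_zero _ (X_sub_C_ne_zero z)
      apply mul_left_cancel₀ h8
      rw [← h6, hG']
      ring
    have h9 : P.eval z = z * Q.eval z := by
      have := congrArg (eval z) h1
      simp only [eval_sub, eval_mul, eval_X, eval_pow, eval_C, sub_self, pow_succ, mul_zero,
        zero_mul] at this
      exact sub_eq_zero.1 this
    have h9' : P.eval z / Q.eval z = z := by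
      rw [h9, mul_div_cancel_right₀ _ h2]
    have h10 : (hc d q P Q).eval z = Q.eval z ^ d * q.eval z := by
      rw [hc_eval, hev_eval _ _ hq _ h2]
      change _ * q.eval (P.eval z / Q.eval z) = _
      rw [h9']
    have h11 : H.eval z = Q.eval z ^ (d - r) * G.eval z := by
      rw [hH, hc_eval, hev_eval _ _ (by omega) _ h2]
      change Q.eval z ^ (d + 1 - (r + 1)) * G.eval (P.eval z / Q.eval z) = _
      rw [h9']
      congr 2
      omega
    have h12 : (hc d q P Q).eval z ≠ 0 := by
      rw [h10]
      exact mul_ne_zero (pow_ne_zero _ h2) hqz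
    have h13 := congrArg (eval z) h7
    simp only [eval_mul, eval_add, eval_pow, eval_sub, eval_X, eval_C, sub_self] at h13
    rw [h10, h11] at h13
    refine ⟨G', hG', h12, ?_, ?_⟩
    · intro hr
      have hr0 : r = 0 := by omega
      subst hr0
      have h14 := h3 rfl
      rw [pow_zero, one_mul, zero_add, pow_one, Nat.sub_zero] at h13
      have e : (1 + G.eval z / q.eval z) ^ l = Gl.eval z / Q.eval z + 1 := by
        rw [h14]
        ring
      rw [h10, pow_succ, e]
      have h15 : G'.eval z = (Q.eval z ^ d * G.eval z * (Gl.eval z + Q.eval z) +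
        Gl.eval z * (Q.eval z ^ d * q.eval z)) / Q.eval z := by
        rw [eq_div_iff h2, ← h13]
        ring
      rw [h15]
      field_simp
      ring
    · intro hr
      have h14 := h4 hr
      rw [zero_pow (by omega : r ≠ 0), zero_mul, zero_add] at h13
      have h16 : Q.eval z ^ (d - r) * Q.eval z ^ (r + 1) = Q.eval z ^ d * Q.eval z := by
        rw [← pow_add, ← pow_succ]
        congr 1
        omega
      have h15 : G'.eval z = (Q.eval z ^ d * Q.eval z * G.eval z +
        Gl.eval z * (Q.eval z ^ d * q.eval z)) / Q.eval z := by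
        rw [eq_div_iff h2, mul_comm, h13, ← h16]
        ring
      rw [h10, h15, Nat.cast_succ, add_mul, ← h14]
      field_simp
      ring

theorem cyc_aux [CharZero K] [IsAlgClosed K] (d : ℕ) (hd : 2 ≤ d) (p q : K[X])
    (hco : IsCoprime p q) (hmax : max p.natDegree q.natDegree = d) (hqd : q.coeff d ≠ 0) :
    ∃ S : Finset ℕ, S.card ≤ d + 1 ∧ ∀ l : ℕ, l.Prime → l ∉ S →
      ∃ z : Option K, (ratP1 p q d)^[l] z = z ∧ ratP1 p q d z ≠ z := by
  classical
  have hinf : Infinite K := inferInstance
  have hp : p.natDegree ≤ d := by rw [← hmax]; exact le_max_left _ _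
  have hq : q.natDegree ≤ d := by rw [← hmax]; exact le_max_right _ _
  set F := p - X * q with hF
  have hFd : F.natDegree ≤ d + 1 := by
    refine (natDegree_sub_le _ _).trans (max_le (by omega) ?_)
    refine natDegree_mul_le.trans ?_
    rw [natDegree_X]
    omega
  have hF0 : F ≠ 0 := by
    intro h
    have h1 : F.coeff (d + 1) = 0 := by rw [h, coeff_zero]
    rw [hF, coeff_sub, coeff_X_mul, coeff_eq_zero_of_natDegree_lt (by omega), zero_sub,
      neg_eq_zero] at h1
    exact hqd h1
  refine ⟨F.roots.toFinset.image (fun z => orderOf (1 +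
    (F /ₘ (X - C z) ^ rootMultiplicity z F).eval z / q.eval z)), ?_, ?_⟩
  · exact Finset.card_image_le.trans ((Multiset.toFinset_card_le _).trans
      ((card_roots' F).trans hFd))
  · intro l hl hlS
    by_contra hcon
    push Not at hcon
    obtain ⟨hPd, hQd⟩ := ip_degree d p q l
    have htop := ip_top d (by omega) p q hmax hco l
    have hloc := fun (z : K) (G : K[X]) (hqz : q.eval z ≠ 0) (m : ℕ) (hm : 1 ≤ m)
      (hG : G.natDegree + m ≤ d + 1) (hF : p - X * q = (X - C z) ^ m * G) =>
      local_key d p q G hp hq z hqz m hm hG hF l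
    have hev' := fun x : K => ip_eval d (by omega) p q hmax hco x l
    set P := (ip d p q l).1 with hP
    set Q := (ip d p q l).2 with hQ
    have hQt : Q.coeff (d ^ l) ≠ 0 := by
      intro h
      have h1 := htop.2
      rw [pt_none _ h] at h1
      have h2 := hcon none h1.symm
      rw [ratP1_none p q d hqd] at h2
      exact Option.some_ne_none _ h2
    have hFl : (P - X * Q).coeff (d ^ l + 1) ≠ 0 := by
      rw [coeff_sub, coeff_X_mul, coeff_eq_zero_of_natDegree_lt (by omega), zero_sub, neg_ne_zero]
      exact hQt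
    have hFl0 : P - X * Q ≠ 0 := fun h => hFl (by rw [h, coeff_zero])
    have hdeg : d ^ l + 1 ≤ (P - X * Q).natDegree := le_natDegree_of_ne_zero hFl
    have hle : (P - X * Q).roots ≤ F.roots := by
      rw [Multiset.le_iff_count]
      intro z
      rw [count_roots, count_roots]
      by_cases hz : (P - X * Q).IsRoot z
      · have h1 := hev' z
        have hPz : P.eval z = z * Q.eval z := by
          have h2 : (P - X * Q).eval z = 0 := hz
          rw [eval_sub, eval_mul, eval_X] at h2
          exact sub_eq_zero.1 h2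
        have hQz : Q.eval z ≠ 0 := by
          intro h
          apply h1.1
          rw [hPz, h, mul_zero]
          rfl
        have h2 : pt (P.eval z, Q.eval z) = some z := by
          rw [pt_some _ hQz]
          change some (P.eval z / Q.eval z) = some z
          rw [hPz, mul_div_cancel_right₀ _ hQz]
        have h3 := hcon (some z) (by rw [← h1.2, h2])
        have hqz : q.eval z ≠ 0 := by
          intro h
          rw [ratP1_some0 _ _ _ _ h] at h3
          exact Option.some_ne_none _ h3.symm
        rw [ratP1_some _ _ _ _ hqz, Option.some_inj, div_eq_iff hqz] at h3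
        have hroot : F.IsRoot z := by
          rw [IsRoot.def, hF, eval_sub, eval_mul, eval_X, h3, sub_self]
        have hmp : 0 < rootMultiplicity z F := (rootMultiplicity_pos hF0).2 hroot
        have hnotin : orderOf (1 + (F /ₘ (X - C z) ^ rootMultiplicity z F).eval z / q.eval z) ≠
            l := by
          intro h
          apply hlS
          exact Finset.mem_image.2 ⟨z, Multiset.mem_toFinset.2 ((mem_roots hF0).2 hroot), h⟩
        have hGF := pow_mul_divByMonic_rootMultiplicity_eq F z
        have hGz := eval_divByMonic_pow_rootMultiplicity_ne_zero z hF0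
        set m := rootMultiplicity z F with hm
        set G := F /ₘ (X - C z) ^ m with hG
        have hG0 : G ≠ 0 := fun h => hGz (by rw [h, eval_zero])
        have hGdeg : G.natDegree + m ≤ d + 1 := by
          have h5 := congrArg natDegree hGF
          rw [natDegree_mul (pow_ne_zero _ (X_sub_C_ne_zero z)) hG0, natDegree_pow,
            natDegree_X_sub_C, mul_one] at h5
          omega
        obtain ⟨Gl, g1, -, g3, g4⟩ := hloc z G hqz m hmp hGdeg hGF.symm
        have hγ : G.eval z / q.eval z ≠ 0 := div_ne_zero hGz hqz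
        have hGl : Gl.eval z ≠ 0 := by
          intro h0
          rcases Nat.lt_or_ge m 2 with h6 | h6
          · have g5 := g3 (by omega)
            rw [h0, zero_div] at g5
            have g6 : (1 + G.eval z / q.eval z) ^ l = 1 := (sub_eq_zero.1 g5.symm)
            rcases (Nat.dvd_prime hl).1 (orderOf_dvd_of_pow_eq_one g6) with h7 | h7
            · rw [orderOf_eq_one_iff] at h7
              exact hγ (by linear_combination h7)
            · exact hnotin h7
          · have g5 := g4 h6
            rw [h0, zero_div] at g5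
            rcases mul_eq_zero.1 g5.symm with h7 | h7
            · exact hl.ne_zero (by exact_mod_cast h7)
            · exact hγ h7
        have hGl0 : Gl ≠ 0 := fun h => hGl (by rw [h, eval_zero])
        rw [g1, rootMultiplicity_mul (mul_ne_zero (pow_ne_zero _ (X_sub_C_ne_zero z)) hGl0),
          rootMultiplicity_X_sub_C_pow, rootMultiplicity_eq_zero (p := Gl) hGl, add_zero]
      · rw [rootMultiplicity_eq_zero hz]
        exact Nat.zero_le _
    have h := Multiset.card_le_card hle
    have hs : (P - X * Q).Splits := IsAlgClosed.splits _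
    rw [← hs.natDegree_eq_card_roots] at h
    have h8 := card_roots' F
    have h9 : d ^ 2 ≤ d ^ l := Nat.pow_le_pow_right (by omega) hl.two_le
    nlinarith

end

theorem t_CYC : Pool.Agent.X263.AL.S_CYC.{u} := by
  intro K _ _ _ d hd p q hco hmax
  have hinf : Infinite K := inferInstance
  have hp : p.natDegree ≤ d := by rw [← hmax]; exact le_max_left _ _
  have hq : q.natDegree ≤ d := by rw [← hmax]; exact le_max_right _ _
  by_cases hqd : q.coeff d = 0
  · have hlead : p.coeff d ≠ 0 := by
      rcases le_total p.natDegree q.natDegree with h | h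
      · rw [max_eq_right h] at hmax
        exfalso
        rw [← hmax] at hqd
        have h1 : q = 0 := leadingCoeff_eq_zero.1 hqd
        rw [h1, natDegree_zero] at hmax
        omega
      · rw [max_eq_left h] at hmax
        rw [← hmax]
        apply leadingCoeff_ne_zero.mpr
        rintro rfl
        rw [natDegree_zero] at hmax
        omega
    have hX : p - X * q ≠ 0 := by
      intro h0
      have h1 : p = X * q := sub_eq_zero.mp h0
      have h2 : IsUnit q := by
        obtain ⟨a, b, hab⟩ := hco
        rw [h1] at hab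
        apply IsUnit.of_mul_eq_one (a * X + b)
        rw [← hab]
        ring
      have h3 := natDegree_eq_zero_of_isUnit h2
      have h4 : p.natDegree ≤ 1 := by
        rw [h1]
        refine natDegree_mul_le.trans ?_
        rw [h3, add_zero]
        exact natDegree_X_le
      rw [h3] at hmax
      omega
    classical
    obtain ⟨c, hc⟩ := Infinite.exists_notMem_finset (p - X * q).roots.toFinset
    have hcr : p.eval c - c * q.eval c ≠ 0 := by
      intro h
      apply hc
      rw [Multiset.mem_toFinset, mem_roots hX, IsRoot.def, eval_sub, eval_mul, eval_X]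
      exact h
    have hpq : (p - C c * q).natDegree ≤ d :=
      (natDegree_sub_le _ _).trans (max_le hp ((natDegree_C_mul_le _ _).trans hq))
    have hq'c : (pc d (p - C c * q) c).coeff d ≠ 0 := by
      rw [pc_coeff d _ hpq, eval_sub, eval_mul, eval_C]
      exact hcr
    have hq'd : (pc d (p - C c * q) c).natDegree = d :=
      le_antisymm (pc_degree _ _ _) (le_natDegree_of_ne_zero hq'c)
    have hmax' : max (pc d q c).natDegree (pc d (p - C c * q) c).natDegree = d := by
      rw [hq'd, max_eq_right (pc_degree _ _ _)]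
    have hco' := pc_coprime d (by omega) p q hp hq hco (Or.inl hlead) c
    have hsum : ∀ F : K[X], ∑ i ∈ Finset.range (d + 1), C (F.coeff i) * (C c * X + C 1) ^ i *
        (C (1 : K) * X + C 0) ^ (d - i) = pc d F c := by
      intro F
      unfold pc Pool.Agent.W277.UH.hc hev
      refine Finset.sum_congr rfl fun i _ => ?_
      rw [coeff_map]
    have hlin : pc d (p - C c * q) c = pc d p c - C c * pc d q c := by
      rw [← hsum, ← hsum, ← hsum, Finset.mul_sum, ← Finset.sum_sub_distrib]
      refine Finset.sum_congr rfl fun i _ => ?_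
      rw [coeff_sub, coeff_C_mul, C_sub, C_mul]
      ring
    obtain ⟨S, hS, h⟩ := cyc_aux d hd _ _ hco' hmax' hq'c
    obtain ⟨φ, hφ, hφ'⟩ := t_CNJ K d (by omega) c 1 1 0 (by simp) 1 one_ne_zero _ _ p q hmax' hco'
      hmax hco (by rw [hsum, hlin, C_1]; ring) (by rw [hsum, C_1, C_0]; ring)
    refine ⟨S, hS, fun l hl hlS => ?_⟩
    obtain ⟨z, hz1, hz2⟩ := h l hl hlS
    refine ⟨φ z, ?_, ?_⟩
    · have h1 : ∀ n, (ratP1 p q d)^[n] (φ z) =
          φ ((ratP1 (pc d q c) (pc d (p - C c * q) c) d)^[n] z) := by
        intro n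
        induction n with
        | zero => rfl
        | succ n ih => rw [Function.iterate_succ_apply', ih, Function.iterate_succ_apply', hφ']
      rw [h1, hz1]
    · rw [← hφ']
      exact fun h => hz2 (hφ h)
  · exact cyc_aux d hd p q hco hmax hqd

end Pool.Agent.X274.AL
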